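import Mathlib

/-! Appell sequences attached to a functional. -/

open Polynomial Set Topology

namespace Q8.HC

/-- Appell polynomials with moments `s`. -/
noncomputable def app : ℕ → (ℕ → ℝ) → ℝ[X]
  | 0, s => C (s 0)
  | n + 1, s => app n (fun j => s (j + 1)) + X * app n s

lemma app_derivative (n : ℕ) (s : ℕ → ℝ) :
    derivative (app (n + 1) s) = C ((n : ℝ) + 1) * app n s := by
  induction n generalizing s with
  | zero => simp [app]
  | succ n ih =>
    rw [app, derivative_add, ih, derivative_mul, derivative_X, ih]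
    conv_rhs => rw [app]
    conv_lhs => rw [app]
    simp only [Nat.cast_add, Nat.cast_one, map_add, map_one]
    ring

lemma app_eval {E : Type*} [AddCommGroup E] [Module ℝ E] [TopologicalSpace E]
    [IsTopologicalAddGroup E] [ContinuousConstSMul ℝ E] (T : E →L[ℝ] E) (f : E →L[ℝ] ℝ) (c : ℝ) (n : ℕ) (x : E) :
    (app n (fun j => f ((T ^ j) x))).eval c = f (((T + c • (1 : E →L[ℝ] E)) ^ n) x) := by
  induction n generalizing x with
  | zero => simp [app]
  | succ n ih =>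
    have e : (fun j => f ((T ^ (j + 1)) x)) = fun j => f ((T ^ j) (T x)) := by
      funext j; rw [pow_succ]; rfl
    rw [app, eval_add, eval_mul, eval_X, e, ih, ih, pow_succ]
    show _ = f (((T + c • (1 : E →L[ℝ] E)) ^ n) (T x + c • x))
    rw [map_add, map_add, map_smul, map_smul, smul_eq_mul]

lemma abel (w : ℕ → ℝ) (hw : ∀ m, 0 ≤ w m) (D : ℝ)
    (h : ∀ N : ℕ, ∑ m ∈ Finset.range N, ((m : ℝ) + 1) * w m ≤ D * ((N : ℝ) + 1)) :
    Summable (fun m => w m / ((m : ℝ) + 1)) := by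
  have hD : 0 ≤ D := by simpa using h 0
  have key : ∀ N : ℕ, ∑ m ∈ Finset.range N, w m / ((m : ℝ) + 1)
      ≤ (∑ m ∈ Finset.range N, ((m : ℝ) + 1) * w m) / ((N : ℝ) + 1) ^ 2
        + 4 * D * (1 - 1 / ((N : ℝ) + 1)) := by
    intro N
    induction N with
    | zero => simp
    | succ N ih =>
      have hS := h (N + 1)
      rw [Finset.sum_range_succ] at hS ⊢
      rw [Finset.sum_range_succ]
      set A := ∑ m ∈ Finset.range N, w m / ((m : ℝ) + 1)
      set B := ∑ m ∈ Finset.range N, ((m : ℝ) + 1) * w m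
      have hN : (0 : ℝ) < (N : ℝ) + 1 := by positivity
      have hN2 : (0 : ℝ) < (N : ℝ) + 2 := by positivity
      push_cast at hS ⊢
      set S := B + ((N : ℝ) + 1) * w N with hSdef
      have e1 : w N / ((N : ℝ) + 1) = (S - B) / ((N : ℝ) + 1) ^ 2 := by
        rw [hSdef]; field_simp; ring
      have e2 : S * (1 / ((N : ℝ) + 1) ^ 2 - 1 / ((N : ℝ) + 2) ^ 2)
          ≤ 4 * D * (1 / ((N : ℝ) + 1) - 1 / ((N : ℝ) + 2)) := by
        have h1 : 1 / ((N : ℝ) + 1) ^ 2 - 1 / ((N : ℝ) + 2) ^ 2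
            = (2 * N + 3) / (((N : ℝ) + 1) ^ 2 * ((N : ℝ) + 2) ^ 2) := by field_simp; ring
        have h2 : 1 / ((N : ℝ) + 1) - 1 / ((N : ℝ) + 2) = 1 / (((N : ℝ) + 1) * ((N : ℝ) + 2)) := by
          field_simp; ring
        rw [h1, h2]
        have h3 : S * ((2 * N + 3) / (((N : ℝ) + 1) ^ 2 * ((N : ℝ) + 2) ^ 2))
            ≤ (D * ((N : ℝ) + 2)) * ((2 * N + 3) / (((N : ℝ) + 1) ^ 2 * ((N : ℝ) + 2) ^ 2)) := by
          apply mul_le_mul_of_nonneg_right _ (by positivity)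
          linarith
        refine h3.trans ?_
        rw [← sub_nonneg]
        have h4 : 4 * D * (1 / (((N : ℝ) + 1) * ((N : ℝ) + 2)))
            - (D * ((N : ℝ) + 2)) * ((2 * N + 3) / (((N : ℝ) + 1) ^ 2 * ((N : ℝ) + 2) ^ 2))
            = D * (2 * N + 1) / (((N : ℝ) + 1) ^ 2 * ((N : ℝ) + 2)) := by field_simp; ring
        rw [h4]
        positivity
      have e3 : ((N : ℝ) + 1 + 1) = (N : ℝ) + 2 := by ring
      rw [e3, e1]
      have e4 : (S - B) / ((N : ℝ) + 1) ^ 2 = S / ((N : ℝ) + 1) ^ 2 - B / ((N : ℝ) + 1) ^ 2 := by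
        rw [sub_div]
      rw [e4]
      have e5 : S * (1 / ((N : ℝ) + 1) ^ 2 - 1 / ((N : ℝ) + 2) ^ 2)
        = S / ((N : ℝ) + 1) ^ 2 - S / ((N : ℝ) + 2) ^ 2 := by ring
      rw [e5] at e2
      linarith
  refine summable_of_sum_range_le (c := 5 * D) (fun m => div_nonneg (hw m) (by positivity)) ?_
  intro N
  refine (key N).trans ?_
  have hN : (1 : ℝ) ≤ (N : ℝ) + 1 := by linarith [Nat.cast_nonneg (α := ℝ) N]
  have h1 : (∑ m ∈ Finset.range N, ((m : ℝ) + 1) * w m) / ((N : ℝ) + 1) ^ 2 ≤ D := by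
    rw [div_le_iff₀ (by positivity)]
    refine (h N).trans ?_
    nlinarith [mul_nonneg hD (by linarith : (0 : ℝ) ≤ (N : ℝ) + 1)]
  have h2 : 4 * D * (1 - 1 / ((N : ℝ) + 1)) ≤ 4 * D := by
    have : 0 ≤ 1 / ((N : ℝ) + 1) := by positivity
    nlinarith
  linarith

end Q8.HC
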