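import Mathlib

/-! An area inequality with multiplicities, in dimension one. -/

open Set Topology MeasureTheory Function
open scoped NNReal ENNReal

namespace Q8.HC

lemma area_le (R R' : ℝ → ℝ) (W : Set ℝ) (hW : MeasurableSet W) (κ : ℝ) (hκ : 0 < κ)
    (hR : ∀ c ∈ W, HasDerivAt R (R' c) c) (hR' : ∀ c ∈ W, κ ≤ R' c) :
    ∃ N : ℝ → ℝ≥0∞, Measurable N ∧ ENNReal.ofReal κ * volume W ≤ ∫⁻ l, N l ∧
      ∀ l (A : Finset ℝ), (∀ c ∈ W, R c = l → c ∈ A) → N l ≤ A.card := by
  classical
  let f' : ℝ → ℝ →L[ℝ] ℝ := fun c => ContinuousLinearMap.toSpanSingleton ℝ (R' c)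
  let r : (ℝ →L[ℝ] ℝ) → ℝ≥0 := fun A => if A 1 = 0 then 1 else ‖A 1‖₊ / 2
  obtain ⟨t, A, ht1, ht2, ht3, ht4, ht5⟩ :=
    exists_partition_approximatesLinearOn_of_hasFDerivWithinAt R W f'
      (fun c hc => (hR c hc).hasFDerivAt.hasFDerivWithinAt) r (by
        intro A
        simp only [r]
        split_ifs with h
        · simp
        · simpa using h)
  have hinj : ∀ n, InjOn R (W ∩ t n) := by
    intro n x hx y hy hxy
    obtain ⟨z, hz, hz'⟩ := ht5 ⟨x, hx.1⟩ n
    have hA1 : A n 1 = R' z := by rw [hz']; simp [f']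
    have hpos : 0 < R' z := lt_of_lt_of_le hκ (hR' z hz)
    have h := ht4 n x hx y hy
    have hr : ((r (A n) : ℝ≥0) : ℝ) = R' z / 2 := by
      simp only [r, hA1, hpos.ne', if_false]
      simp [abs_of_pos hpos]
    rw [hr, hxy, sub_self, zero_sub, norm_neg] at h
    have e : A n (x - y) = (x - y) * R' z := by
      have : x - y = (x - y) • (1 : ℝ) := by simp
      rw [this, map_smul, hA1]
      simp
    rw [e, norm_mul, Real.norm_eq_abs (R' z), abs_of_pos hpos] at h
    have h2 : ‖x - y‖ = 0 := by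
      have h3 := norm_nonneg (x - y)
      nlinarith
    exact sub_eq_zero.1 (norm_eq_zero.1 h2)
  have hmeas : ∀ n, MeasurableSet (W ∩ t n) := fun n => hW.inter (ht2 n)
  have himg : ∀ n, MeasurableSet (R '' (W ∩ t n)) := fun n =>
    measurable_image_of_fderivWithin (hmeas n)
      (fun c hc => (hR c hc.1).hasFDerivAt.hasFDerivWithinAt) (hinj n)
  have hWeq : W = ⋃ n, W ∩ t n := by
    rw [← inter_iUnion]
    exact (inter_eq_left.2 ht3).symm
  refine ⟨fun l => ∑' n, (R '' (W ∩ t n)).indicator 1 l, ?_, ?_, ?_⟩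
  · exact Measurable.tsum fun n => measurable_one.indicator (himg n)
  · rw [lintegral_tsum fun n => (measurable_one.indicator (himg n)).aemeasurable]
    have h1 : ∀ n, ∫⁻ l, (R '' (W ∩ t n)).indicator (1 : ℝ → ℝ≥0∞) l
        = ∫⁻ x in W ∩ t n, ENNReal.ofReal |R' x| := by
      intro n
      rw [lintegral_indicator (himg n)]
      have := lintegral_image_eq_lintegral_abs_deriv_mul (hmeas n)
        (fun c hc => (hR c hc.1).hasDerivWithinAt) (hinj n) (fun _ => 1)
      simpa using this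
    have h2 : ∀ n, ENNReal.ofReal κ * volume (W ∩ t n)
        ≤ ∫⁻ l, (R '' (W ∩ t n)).indicator (1 : ℝ → ℝ≥0∞) l := by
      intro n
      rw [h1 n, ← setLIntegral_const]
      apply setLIntegral_mono' (hmeas n)
      intro x hx
      exact ENNReal.ofReal_le_ofReal ((hR' x hx.1).trans (le_abs_self _))
    calc ENNReal.ofReal κ * volume W
        = ENNReal.ofReal κ * ∑' n, volume (W ∩ t n) := by
          rw [← measure_iUnion (fun i j hij => (ht1 hij).mono inter_subset_right inter_subset_right) hmeas, ← hWeq]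
      _ = ∑' n, ENNReal.ofReal κ * volume (W ∩ t n) := ENNReal.tsum_mul_left.symm
      _ ≤ _ := ENNReal.tsum_le_tsum h2
  · intro l B hB
    beta_reduce
    rw [ENNReal.tsum_eq_iSup_sum]
    refine iSup_le fun F => ?_
    have e1 : ∑ n ∈ F, (R '' (W ∩ t n)).indicator (1 : ℝ → ℝ≥0∞) l
        = ((F.filter fun n => l ∈ R '' (W ∩ t n)).card : ℝ≥0∞) := by
      rw [Finset.card_filter]
      push_cast
      refine Finset.sum_congr rfl fun n _ => ?_
      simp [indicator_apply]
    rw [e1]
    norm_cast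
    choose! g hg1 hg2 using fun n (hn : l ∈ R '' (W ∩ t n)) => hn
    refine Finset.card_le_card_of_injOn g ?_ ?_
    · intro n hn
      have hn' : l ∈ R '' (W ∩ t n) := by simpa using (Finset.mem_filter.1 (Finset.mem_coe.1 hn)).2
      exact hB _ (hg1 n hn').1 (hg2 n hn')
    · intro n hn m hm hnm
      have hn' : l ∈ R '' (W ∩ t n) := by simpa using (Finset.mem_filter.1 (Finset.mem_coe.1 hn)).2
      have hm' : l ∈ R '' (W ∩ t m) := by simpa using (Finset.mem_filter.1 (Finset.mem_coe.1 hm)).2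
      by_contra hne
      have hd := ht1 hne
      exact (Set.disjoint_left.1 hd) (hg1 n hn').2 (hnm ▸ (hg1 m hm').2)

end Q8.HC
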