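import Mathlib

/-! Counting abnormal critical points of real polynomials. -/

open Polynomial Set Topology

namespace Q8.HC

lemma exists_gt (g : ℝ[X]) (hg : derivative g ≠ 0) {s a b : ℝ} (hab : a < b)
    (hs : s ∈ Icc a b) (hmin : ∀ᶠ y in 𝓝 s, g.eval s ≤ g.eval y) :
    ∃ y ∈ Ioo a b, g.eval s < g.eval y := by
  by_contra hcon
  push Not at hcon
  rw [← closure_Ioo hab.ne] at hs
  obtain ⟨U, hU, hUo, hsU⟩ := eventually_nhds_iff.1 hmin
  obtain ⟨z, hzU, hzI⟩ := mem_closure_iff.1 hs U hUo hsU
  have hn : U ∩ Ioo a b ∈ 𝓝 z := (hUo.inter isOpen_Ioo).mem_nhds ⟨hzU, hzI⟩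
  have hinf : (U ∩ Ioo a b).Infinite := infinite_of_mem_nhds z hn
  have hz : g - C (g.eval s) = 0 := by
    refine Polynomial.eq_zero_of_infinite_isRoot _ (hinf.mono ?_)
    rintro y ⟨hyU, hyI⟩
    have h1 := hU y hyU
    have h2 := hcon y hyI
    show (g - C (g.eval s)).eval y = 0
    simp
    linarith
  apply hg
  have : g = C (g.eval s) := by linear_combination hz
  rw [this]; simp

lemma abn_count (Q : ℝ[X]) (hQ : derivative Q ≠ 0) (A : Finset ℝ)
    (hA : ∀ ξ ∈ A, (derivative Q).eval ξ = 0 ∧
      0 < Q.eval ξ * (derivative (derivative Q)).eval ξ) :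
    2 * A.card + Q.roots.toFinset.card ≤ (derivative Q).roots.toFinset.card + 1 := by
  have hQ0 : Q ≠ 0 := by rintro rfl; simp at hQ
  have hg : derivative (Q ^ 2) ≠ 0 := by
    rw [Polynomial.derivative_pow]
    simp [hQ, hQ0]
  set S := Q.roots.toFinset ∪ A with hS
  have hdisj : Disjoint Q.roots.toFinset A := by
    rw [Finset.disjoint_left]
    intro ξ h1 h2
    have h3 := (hA ξ h2).2
    simp only [Multiset.mem_toFinset, mem_roots hQ0, IsRoot] at h1
    rw [h1] at h3
    simp at h3
  have hcard : S.card = Q.roots.toFinset.card + A.card := Finset.card_union_of_disjoint hdisj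
  have hAt : A ⊆ (derivative Q).roots.toFinset := by
    intro ξ h
    simp only [Multiset.mem_toFinset, mem_roots hQ, IsRoot]
    exact (hA ξ h).1
  have hmin : ∀ s ∈ S, ∀ᶠ y in 𝓝 s, (Q ^ 2).eval s ≤ (Q ^ 2).eval y := by
    intro s hs
    rcases Finset.mem_union.1 hs with h | h
    · simp only [Multiset.mem_toFinset, mem_roots hQ0, IsRoot] at h
      refine Filter.Eventually.of_forall fun y => ?_
      simp [h]
      positivity
    · obtain ⟨h1, h2⟩ := hA s h
      have key : IsLocalMin (fun y => (Q ^ 2).eval y) s := by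
        apply isLocalMin_of_deriv_deriv_pos
        · have e1 : deriv (fun y => (Q ^ 2).eval y) = fun y => (derivative (Q ^ 2)).eval y := by
            funext y; exact Polynomial.deriv _
          rw [e1, Polynomial.deriv]
          rw [Polynomial.derivative_pow]
          simp [h1]
          nlinarith
        · rw [Polynomial.deriv, Polynomial.derivative_pow]
          simp [h1]
        · exact (Q ^ 2).continuous.continuousAt
      exact key
  have h1 : S.card ≤ ((derivative Q).roots.toFinset \ S).card + 1 := by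
    apply Finset.card_le_sdiff_of_interleaved
    intro s hs t ht hst hno
    obtain ⟨u, hu, hmax⟩ := isCompact_Icc.exists_isMaxOn (nonempty_Icc.2 hst.le)
      ((Q ^ 2).continuous.continuousOn (s := Icc s t))
    have hmax' : ∀ y ∈ Icc s t, (Q ^ 2).eval y ≤ (Q ^ 2).eval u := fun y hy => hmax hy
    obtain ⟨y, hy, hy'⟩ := exists_gt (Q ^ 2) hg hst (left_mem_Icc.2 hst.le) (hmin s hs)
    obtain ⟨z, hz, hz'⟩ := exists_gt (Q ^ 2) hg hst (right_mem_Icc.2 hst.le) (hmin t ht)
    have h3 : (Q ^ 2).eval s < (Q ^ 2).eval u := hy'.trans_le (hmax' y (Ioo_subset_Icc_self hy))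
    have h4 : (Q ^ 2).eval t < (Q ^ 2).eval u := hz'.trans_le (hmax' z (Ioo_subset_Icc_self hz))
    have h5 : u ≠ s := by rintro rfl; exact lt_irrefl _ h3
    have h6 : u ≠ t := by rintro rfl; exact lt_irrefl _ h4
    have hu' : u ∈ Ioo s t := ⟨lt_of_le_of_ne hu.1 h5.symm, lt_of_le_of_ne hu.2 h6⟩
    have hlm : IsLocalMax (fun y => (Q ^ 2).eval y) u := by
      have : IsMaxOn (fun y => (Q ^ 2).eval y) (Icc s t) u := hmax
      exact this.isLocalMax (Icc_mem_nhds hu'.1 hu'.2)
    have hd := hlm.deriv_eq_zero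
    rw [Polynomial.deriv, Polynomial.derivative_pow] at hd
    have hQu : Q.eval u ≠ 0 := by
      intro h
      simp only [eval_pow, h] at h3
      have : 0 ≤ Q.eval s ^ 2 := by positivity
      norm_num at h3
      linarith
    simp [hQu] at hd
    refine ⟨u, ?_, hu'.1, hu'.2⟩
    simp only [Multiset.mem_toFinset, mem_roots hQ, IsRoot]
    exact hd
  have h2 : ((derivative Q).roots.toFinset \ S).card + A.card
      ≤ (derivative Q).roots.toFinset.card := by
    rw [← Finset.card_union_of_disjoint]
    · apply Finset.card_le_card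
      intro ξ h
      rcases Finset.mem_union.1 h with h | h
      · exact (Finset.mem_sdiff.1 h).1
      · exact hAt h
    · rw [Finset.disjoint_left]
      intro ξ h h'
      exact (Finset.mem_sdiff.1 h).2 (Finset.mem_union_right _ h')
  omega

lemma sum_count (q : ℕ → ℝ[X]) (e : ℝ) (he : e ≠ 0)
    (hq : ∀ n, derivative (q (n + 1)) = C ((n : ℝ) + 1) * q n) (h0 : q 0 = C e)
    (A : ℕ → Finset ℝ)
    (hA : ∀ m, ∀ ξ ∈ A m, (q (m + 1)).eval ξ = 0 ∧
      0 < (q (m + 2)).eval ξ * (q m).eval ξ) (N : ℕ) :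
    2 * ∑ m ∈ Finset.range N, (A m).card ≤ N + 1 := by
  have hn0 : ∀ n : ℕ, ((n : ℝ) + 1) ≠ 0 := fun n => by positivity
  have hne : ∀ n, q n ≠ 0 := by
    intro n
    induction n with
    | zero => rw [h0]; simpa using he
    | succ n ih =>
      intro h
      have := hq n
      rw [h, derivative_zero] at this
      exact (mul_ne_zero (C_ne_zero.2 (hn0 n)) ih) this.symm
  have hroots : ∀ n, (derivative (q (n + 1))).roots = (q n).roots := by
    intro n
    rw [hq, Polynomial.roots_C_mul _ (hn0 n)]
  have hstep : ∀ m, 2 * (A m).card + (q (m + 2)).roots.toFinset.card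
      ≤ (q (m + 1)).roots.toFinset.card + 1 := by
    intro m
    have := abn_count (q (m + 2)) (by
      rw [hq (m + 1)]
      exact mul_ne_zero (C_ne_zero.2 (hn0 (m + 1))) (hne _)) (A m) (by
      intro ξ hξ
      obtain ⟨h1, h2⟩ := hA m ξ hξ
      rw [hq (m + 1)]
      refine ⟨by simp [h1], ?_⟩
      rw [derivative_C_mul, hq m]
      simp only [eval_mul, eval_C]
      have : eval ξ (q (m + 2)) * (((m + 1 : ℕ) + 1 : ℝ) * (((m : ℝ) + 1) * eval ξ (q m)))
        = (((m + 1 : ℕ) + 1 : ℝ) * ((m : ℝ) + 1)) * (eval ξ (q (m + 2)) * eval ξ (q m)) := by ring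
      rw [this]
      positivity)
    rw [hroots (m + 1)] at this
    exact this
  have hind : ∀ N : ℕ, 2 * ∑ m ∈ Finset.range N, (A m).card + (q (N + 1)).roots.toFinset.card
      ≤ (q 1).roots.toFinset.card + N := by
    intro N
    induction N with
    | zero => simp
    | succ N ih =>
      rw [Finset.sum_range_succ]
      have := hstep N
      have e : N + 1 + 1 = N + 2 := rfl
      rw [e]
      omega
  have h1 : (q 1).roots.toFinset.card ≤ 1 := by
    have := Polynomial.card_roots_toFinset_le_derivative (q 1)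
    have h2 := hroots 0
    rw [zero_add] at h2
    rw [h2, h0] at this
    simpa using this
  have := hind N
  omega

end Q8.HC
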