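import Mathlib

/-! Dense orbits and finitely many functionals. -/

open Set Topology Filter

namespace Q8.HC

variable {X : Type*} [AddCommGroup X] [Module ℝ X] [TopologicalSpace X]

/-- a homogeneous continuous function multiplied by a constant along the operator vanishes -/
lemma hom_zero (S : X → X) (x : X) (hd : Dense (range fun n : ℕ => S^[n] x)) (h : X → ℝ)
    (hc : Continuous h) (δ : ℝ) (hS : ∀ y, h (S y) = δ * h y) (d : ℕ) (hd1 : d ≠ 0)
    (hh : ∀ (t : ℝ) y, h (t • y) = t ^ d * h y) (y : X) : h y = 0 := by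
  have horb : ∀ n : ℕ, h (S^[n] x) = δ ^ n * h x := by
    intro n
    induction n with
    | zero => simp
    | succ n ih => rw [Function.iterate_succ_apply', hS, ih]; ring
  have hcl : ∀ C : Set ℝ, IsClosed C → (∀ n : ℕ, h (S^[n] x) ∈ C) → ∀ y, h y ∈ C := by
    intro C hC hn y
    have h1 : closure (range fun n : ℕ => S^[n] x) ⊆ h ⁻¹' C :=
      closure_minimal (by rintro _ ⟨n, rfl⟩; exact hn n) (hC.preimage hc)
    exact h1 (hd y)
  rcases le_or_gt |δ| 1 with hδ | hδ
  · have hb : ∀ y, |h y| ≤ |h x| := by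
      have := hcl {r | |r| ≤ |h x|} (isClosed_le continuous_abs continuous_const) (by
        intro n
        simp only [mem_ofPred_eq]
        rw [horb, abs_mul, abs_pow]
        exact mul_le_of_le_one_left (abs_nonneg _) (pow_le_one₀ (abs_nonneg _) hδ))
      exact this
    by_contra hy
    have hy' : 0 < |h y| := abs_pos.2 hy
    obtain ⟨N, hN⟩ := exists_nat_gt (|h x| / |h y|)
    have h2 := hb (((N : ℝ) + 1) • y)
    rw [hh, abs_mul, abs_pow] at h2
    have h3 : (1 : ℝ) ≤ |(N : ℝ) + 1| := by rw [abs_of_nonneg (by positivity)]; linarith [Nat.cast_nonneg (α := ℝ) N]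
    have h4 : |(N : ℝ) + 1| ≤ |(N : ℝ) + 1| ^ d := le_self_pow₀ h3 hd1
    rw [div_lt_iff₀ hy'] at hN
    have h5 : (N : ℝ) ≤ |(N : ℝ) + 1| := by rw [abs_of_nonneg (by positivity)]; linarith
    have h6 : (N : ℝ) * |h y| ≤ |(N : ℝ) + 1| ^ d * |h y| :=
      mul_le_mul_of_nonneg_right (h5.trans h4) hy'.le
    linarith
  · have h0 : h 0 = 0 := by
      have := hh 0 0
      rw [smul_zero, zero_pow hd1, zero_mul] at this
      exact this
    have hb := hcl {r | |h x| ≤ |r|} (isClosed_le continuous_const continuous_abs) (by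
        intro n
        simp only [mem_ofPred_eq]
        rw [horb, abs_mul, abs_pow]
        exact le_mul_of_one_le_left (abs_nonneg _) (one_le_pow₀ hδ.le)) 0
    simp only [mem_ofPred_eq, h0, abs_zero] at hb
    have hx : h x = 0 := abs_eq_zero.1 (le_antisymm hb (abs_nonneg _))
    have := hcl {0} isClosed_singleton (by intro n; simp [horb, hx]) y
    exact this

variable [IsTopologicalAddGroup X]

/-- The values of four consecutive functionals can be prescribed. -/
lemma exists_values (S : X →L[ℝ] X) (a : ℝ) (x : X)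
    (hd : Dense (range fun n : ℕ => (fun y => a • S y)^[n] x)) (f : X →L[ℝ] ℝ) (hf : f ≠ 0)
    (w0 w1 w2 w3 : ℝ) :
    ∃ y, f y = w0 ∧ f (S y) = w1 ∧ f (S (S y)) = w2 ∧ f (S (S (S y))) = w3 := by
  -- the linear maps
  let L : ℕ → (X →ₗ[ℝ] ℝ) := fun k => ((f.comp (S ^ k) : X →L[ℝ] ℝ) : X →ₗ[ℝ] ℝ)
  have hL0 : ∀ y, L 0 y = f y := fun y => by simp [L]
  have hL1 : ∀ y, L 1 y = f (S y) := fun y => by simp [L]
  have hL2 : ∀ y, L 2 y = f (S (S y)) := fun y => by simp [L, pow_succ]
  have hL3 : ∀ y, L 3 y = f (S (S (S y))) := fun y => by simp [L, pow_succ]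
  have key : ∀ (h : X → ℝ) (δ : ℝ) (d : ℕ), Continuous h → (∀ y, h (S y) = δ * h y) → d ≠ 0 →
      (∀ (t : ℝ) y, h (t • y) = t ^ d * h y) → ∀ y, h y = 0 := by
    intro h δ d hc hS hd1 hh y
    exact hom_zero (fun y => a • S y) x hd h hc (a ^ d * δ)
      (fun y => by rw [hh, hS]; ring) d hd1 hh y
  -- z0
  obtain ⟨z0, hz0⟩ : ∃ z, f z = 1 := by
    obtain ⟨z, hz⟩ : ∃ z, f z ≠ 0 := by
      by_contra hcon
      push Not at hcon
      exact hf (by ext y; simpa using hcon y)
    exact ⟨(f z)⁻¹ • z, by simp [hz]⟩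
  -- z1
  obtain ⟨z1, hz10, hz11⟩ : ∃ z, f z = 0 ∧ f (S z) = 1 := by
    obtain ⟨z, hz, hz'⟩ : ∃ z, f z = 0 ∧ f (S z) ≠ 0 := by
      by_contra hcon
      push Not at hcon
      -- f ∘ S = α f
      have hα : ∀ y, f (S y) = f (S z0) * f y := by
        intro y
        have := hcon (y - f y • z0) (by simp [hz0])
        simp only [map_sub, map_smul, smul_eq_mul] at this
        linarith
      have := key f (f (S z0)) 1 f.continuous hα one_ne_zero (fun t y => by simp) z0
      rw [hz0] at this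
      exact one_ne_zero this
    exact ⟨(f (S z))⁻¹ • z, by simp [hz], by simp [hz']⟩
  -- z2
  obtain ⟨z2, hz20, hz21, hz22⟩ : ∃ z, f z = 0 ∧ f (S z) = 0 ∧ f (S (S z)) = 1 := by
    obtain ⟨z, hz, hz', hz''⟩ : ∃ z, f z = 0 ∧ f (S z) = 0 ∧ f (S (S z)) ≠ 0 := by
      by_contra hcon
      push Not at hcon
      -- f ∘ S² = α f + β f∘S
      obtain ⟨α, β, hαβ⟩ : ∃ α β, ∀ y, f (S (S y)) = α * f y + β * f (S y) := by
        refine ⟨f (S (S z0)) - f (S z0) * f (S (S z1)), f (S (S z1)), fun y => ?_⟩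
        have := hcon (y - f y • z0 - (f (S y) - f y * f (S z0)) • z1) (by simp [hz0, hz10])
          (by simp [hz11])
        simp only [map_sub, map_smul, smul_eq_mul] at this
        linarith
      have := key (fun y => f y * f (S (S y)) - f (S y) ^ 2) (-α) 2 (by fun_prop) (by
        intro y
        have e1 := hαβ y
        have e2 := hαβ (S y)
        simp only [e2, e1]
        ring) two_ne_zero (by intro t y; simp; ring) z1
      simp [hz10, hz11] at this
    exact ⟨(f (S (S z)))⁻¹ • z, by simp [hz], by simp [hz'], by simp [hz'']⟩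
  -- z3
  obtain ⟨z3, hz30, hz31, hz32, hz33⟩ :
      ∃ z, f z = 0 ∧ f (S z) = 0 ∧ f (S (S z)) = 0 ∧ f (S (S (S z))) = 1 := by
    obtain ⟨z, h1, h2, h3, h4⟩ :
        ∃ z, f z = 0 ∧ f (S z) = 0 ∧ f (S (S z)) = 0 ∧ f (S (S (S z))) ≠ 0 := by
      by_contra hcon
      push Not at hcon
      obtain ⟨α, β, γ, hr⟩ : ∃ α β γ, ∀ y,
          f (S (S (S y))) = α * f y + β * f (S y) + γ * f (S (S y)) := by
        set g : X → ℝ := fun y => f (S (S (S y))) with hg
        refine ⟨g z0 - f (S z0) * g z1 - (f (S (S z0)) - f (S z0) * f (S (S z1))) * g z2,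
          g z1 - f (S (S z1)) * g z2, g z2, fun y => ?_⟩
        have := hcon (y - f y • z0 - (f (S y) - f y * f (S z0)) • z1
          - (f (S (S y)) - f y * f (S (S z0)) - (f (S y) - f y * f (S z0)) * f (S (S z1))) • z2)
          (by simp [hz0, hz10, hz20]) (by simp [hz11, hz21]) (by simp [hz22])
        simp only [map_sub, map_smul, smul_eq_mul] at this
        simp only [hg]
        linarith
      have := key (fun y =>
          f y * (f (S (S y)) * f (S (S (S (S y)))) - f (S (S (S y))) ^ 2)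
          - f (S y) * (f (S y) * f (S (S (S (S y)))) - f (S (S (S y))) * f (S (S y)))
          + f (S (S y)) * (f (S y) * f (S (S (S y))) - f (S (S y)) ^ 2)) α 3 (by fun_prop) (by
        intro y
        have e1 := hr y
        have e2 := hr (S y)
        have e3 := hr (S (S y))
        simp only [e3, e2, e1]
        ring) three_ne_zero (by intro t y; simp; ring) z2
      simp [hz20, hz21, hz22] at this
    exact ⟨(f (S (S (S z))))⁻¹ • z, by simp [h1], by simp [h2], by simp [h3], by simp [h4]⟩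
  -- combine
  have step : ∀ v : X, ∃ y, f y = w0 ∧ f (S y) = w1 ∧ f (S (S y)) = w2 ∧ f (S (S (S y))) = w3 := by
    intro _
    set u0 := w0 • z0 with hu0
    set u1 := u0 + (w1 - f (S u0)) • z1 with hu1
    set u2 := u1 + (w2 - f (S (S u1))) • z2 with hu2
    set u3 := u2 + (w3 - f (S (S (S u2)))) • z3 with hu3
    have a0 : f u0 = w0 := by simp [hu0, hz0]
    have a1 : f u1 = w0 ∧ f (S u1) = w1 := by
      constructor
      · simp [hu1, hz10, a0]
      · simp [hu1, hz11]
    have a2 : f u2 = w0 ∧ f (S u2) = w1 ∧ f (S (S u2)) = w2 := by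
      refine ⟨?_, ?_, ?_⟩
      · rw [hu2]; simp only [map_add, map_smul, hz20, a1.1]; simp
      · rw [hu2]; simp only [map_add, map_smul, hz21, a1.2]; simp
      · rw [hu2]; simp only [map_add, map_smul, hz22]; simp
    refine ⟨u3, ?_, ?_, ?_, ?_⟩
    · rw [hu3]; simp only [map_add, map_smul, hz30, a2.1]; simp
    · rw [hu3]; simp only [map_add, map_smul, hz31, a2.2.1]; simp
    · rw [hu3]; simp only [map_add, map_smul, hz32, a2.2.2]; simp
    · rw [hu3]; simp only [map_add, map_smul, hz33]; simp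
  exact step 0

lemma iterate_smul (S : X →L[ℝ] X) (a : ℝ) (x : X) (n : ℕ) :
    (fun y => a • S y)^[n] x = a ^ n • (S ^ n) x := by
  induction n with
  | zero => simp
  | succ n ih =>
    rw [Function.iterate_succ_apply', ih, map_smul, smul_smul, pow_succ' S, pow_succ' a]
    rfl

lemma frequently_close (S : X →L[ℝ] X) (a : ℝ) (x : X)
    (hd : Dense (range fun n : ℕ => (fun y => a • S y)^[n] x)) (f : X →L[ℝ] ℝ) (hf : f ≠ 0)
    (w0 w1 w2 w3 ε : ℝ) (hε : 0 < ε) :
    ∃ᶠ m : ℕ in atTop, |a ^ m * f ((S ^ m) x) - w0| < ε ∧ |a ^ m * f ((S ^ (m + 1)) x) - w1| < ε ∧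
      |a ^ m * f ((S ^ (m + 2)) x) - w2| < ε ∧ |a ^ m * f ((S ^ (m + 3)) x) - w3| < ε := by
  intro hcon
  obtain ⟨M, hM⟩ := eventually_atTop.1 hcon
  let F : Set ℝ := (fun m : ℕ => f ((fun y => a • S y)^[m] x)) '' (Set.Iio M)
  have hF : F.Finite := (Set.finite_Iio M).image _
  have hFc : IsClosed F := hF.isClosed
  have hinf : (Ioo (w0 - ε) (w0 + ε)).Infinite := Ioo_infinite (by linarith)
  obtain ⟨v, hv, hvF⟩ := (hinf.sdiff hF).nonempty
  obtain ⟨y, hy0, hy1, hy2, hy3⟩ := exists_values S a x hd f hf v w1 w2 w3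
  let U : Set X := {y | |f y - w0| < ε} ∩ {y | |f (S y) - w1| < ε} ∩ {y | |f (S (S y)) - w2| < ε}
    ∩ {y | |f (S (S (S y))) - w3| < ε} ∩ f ⁻¹' Fᶜ
  have hU : IsOpen U := by
    refine (((IsOpen.inter ?_ ?_).inter ?_).inter ?_).inter (hFc.isOpen_compl.preimage f.continuous)
    · exact isOpen_lt (by fun_prop) continuous_const
    · exact isOpen_lt (by fun_prop) continuous_const
    · exact isOpen_lt (by fun_prop) continuous_const
    · exact isOpen_lt (by fun_prop) continuous_const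
  have hyU : y ∈ U := by
    refine ⟨⟨⟨⟨?_, ?_⟩, ?_⟩, ?_⟩, ?_⟩
    · show |f y - w0| < ε
      rw [hy0, abs_lt]; constructor <;> linarith [hv.1, hv.2]
    · show |f (S y) - w1| < ε
      simp [hy1, hε]
    · show |f (S (S y)) - w2| < ε
      simp [hy2, hε]
    · show |f (S (S (S y))) - w3| < ε
      simp [hy3, hε]
    · show f y ∉ F
      rw [hy0]; exact hvF
  obtain ⟨z, hzU, m, hm⟩ := hd.inter_open_nonempty U hU ⟨y, hyU⟩
  have hm' : (fun y => a • S y)^[m] x = z := hm
  obtain ⟨⟨⟨⟨h0, h1⟩, h2⟩, h3⟩, h4⟩ := hzU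
  have hmM : M ≤ m := by
    by_contra hlt
    push Not at hlt
    apply h4
    exact ⟨m, hlt, by show f _ = f z; rw [hm']⟩
  apply hM m hmM
  rw [iterate_smul] at hm'
  have e1 : (S ^ (m + 1)) x = S ((S ^ m) x) := by rw [pow_succ']; rfl
  have e2 : (S ^ (m + 2)) x = S (S ((S ^ m) x)) := by rw [pow_succ', pow_succ']; rfl
  have e3 : (S ^ (m + 3)) x = S (S (S ((S ^ m) x))) := by rw [pow_succ', pow_succ', pow_succ']; rfl
  rw [e1, e2, e3]
  simp only [mem_ofPred_eq, ← hm', map_smul, smul_eq_mul] at h0 h1 h2 h3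
  exact ⟨h0, h1, h2, h3⟩

end Q8.HC
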