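import Pool.Agent.Q8.HC.Count
import Pool.Agent.Q8.HC.Area
import Pool.Agent.Q8.HC.Orbit
import Pool.Agent.Q8.HC.Appell

/-! Common hypercyclic vectors for the affine family: the set of good parameters is null. -/

open Polynomial Set Topology MeasureTheory Filter
open scoped ENNReal

namespace Q8.HC

/-- The set of parameters where the polynomials have the prescribed pattern. -/
def W (P : ℕ → ℝ[X]) (K : ℝ) (m : ℕ) : Set ℝ :=
  {c | |c| ≤ K} ∩ {c | 0 < (P (m + 1)).eval c} ∩ {c | 4 * |(P m).eval c| ≤ (P (m + 1)).eval c} ∩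
    {c | 4 * |(P (m + 2)).eval c| ≤ (P (m + 1)).eval c} ∩
    {c | (P (m + 1)).eval c ≤ 2 * (P (m + 3)).eval c}

lemma W_meas (P : ℕ → ℝ[X]) (K : ℝ) (m : ℕ) : MeasurableSet (W P K m) := by
  have hc : ∀ j, Continuous fun c => (P j).eval c := fun j => (P j).continuous
  refine ((((isClosed_le continuous_abs continuous_const).measurableSet.inter
    (isOpen_lt continuous_const (hc _)).measurableSet).inter
    (isClosed_le (continuous_const.mul (hc _).abs) (hc _)).measurableSet).inter
    (isClosed_le (continuous_const.mul (hc _).abs) (hc _)).measurableSet).inter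
    (isClosed_le (hc _) (continuous_const.mul (hc _))).measurableSet

lemma W_sub (P : ℕ → ℝ[X]) (K : ℝ) (m : ℕ) : W P K m ⊆ Icc (-K) K := by
  rintro c ⟨⟨⟨⟨h, _⟩, _⟩, _⟩, _⟩
  exact abs_le.1 h

lemma W_fin (P : ℕ → ℝ[X]) (K : ℝ) (m : ℕ) : volume (W P K m) ≠ ∞ := by
  have := (measure_mono (W_sub P K m)).trans_lt (measure_Icc_lt_top (μ := volume) (a := -K) (b := K))
  exact this.ne

lemma W_sum (P : ℕ → ℝ[X]) (e0 e1 : ℝ) (he : e0 ≠ 0)
    (hP : ∀ n, derivative (P (n + 1)) = C ((n : ℝ) + 1) * P n) (h0 : P 0 = C e0)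
    (h1 : P 1 = C e1 + X * C e0) (K : ℝ) (hK : 0 < K) (N : ℕ) :
    ∑ m ∈ Finset.range N, ENNReal.ofReal (((m : ℝ) + 1) / 2) * volume (W P K m)
      ≤ ENNReal.ofReal ((K + 1) * ((N : ℝ) + 1)) := by
  classical
  -- the functions
  let R : ℕ → ℝ → ℝ := fun m c => (P (m + 2)).eval c / (P (m + 1)).eval c - c
  let R' : ℕ → ℝ → ℝ := fun m c =>
    ((((m : ℝ) + 2) * (P (m + 1)).eval c) * (P (m + 1)).eval c
      - (P (m + 2)).eval c * (((m : ℝ) + 1) * (P m).eval c)) / (P (m + 1)).eval c ^ 2 - 1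
  have hder : ∀ n c, HasDerivAt (fun c => (P (n + 1)).eval c) (((n : ℝ) + 1) * (P n).eval c) c := by
    intro n c
    have := (P (n + 1)).hasDerivAt c
    rw [hP] at this
    simpa using this
  have hR : ∀ m, ∀ c ∈ W P K m, HasDerivAt (R m) (R' m c) c := by
    intro m c hc
    obtain ⟨⟨⟨⟨_, hp⟩, _⟩, _⟩, _⟩ := hc
    have hp' : (P (m + 1)).eval c ≠ 0 := ne_of_gt hp
    have h2 := hder (m + 1) c
    have h3 := ((h2.div (hder m c) hp').sub (hasDerivAt_id c))
    have e : R' m c = ((((m + 1 : ℕ) : ℝ) + 1) * (P (m + 1)).eval c * (P (m + 1)).eval c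
        - (P (m + 1 + 1)).eval c * (((m : ℝ) + 1) * (P m).eval c)) / (P (m + 1)).eval c ^ 2 - 1 := by
      simp only [R']
      push_cast
      ring
    rw [e]
    exact h3
  have hR' : ∀ m, ∀ c ∈ W P K m, ((m : ℝ) + 1) / 2 ≤ R' m c := by
    intro m c hc
    obtain ⟨⟨⟨⟨_, hp⟩, ha⟩, hb⟩, _⟩ := hc
    simp only [mem_ofPred_eq] at hp ha hb
    simp only [R']
    set p := (P (m + 1)).eval c
    set u := (P m).eval c
    set v := (P (m + 2)).eval c
    have huv : v * u ≤ p ^ 2 / 16 := by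
      have h1 : v * u ≤ |v| * |u| := by rw [← abs_mul]; exact le_abs_self _
      have h2 : |v| * |u| ≤ (p / 4) * (p / 4) :=
        mul_le_mul (by linarith) (by linarith) (abs_nonneg _) (by positivity)
      nlinarith
    have hm : (0 : ℝ) < (m : ℝ) + 1 := by positivity
    rw [le_sub_iff_add_le, le_div_iff₀ (by positivity)]
    have h5 : ((m : ℝ) + 1) * (v * u) ≤ ((m : ℝ) + 1) * (p ^ 2 / 16) :=
      mul_le_mul_of_nonneg_left huv hm.le
    have h6 : 0 < ((m : ℝ) + 1) * p ^ 2 := by positivity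
    nlinarith
  choose Nf hN1 hN2 hN3 using fun m => area_le (R m) (R' m) (W P K m) (W_meas P K m)
    (((m : ℝ) + 1) / 2) (by positivity) (hR m) (hR' m)
  -- the counting bound
  let q : ℝ → ℕ → ℝ[X] := fun l n => P (n + 1) - (X + C l) * P n
  have hq : ∀ l n, derivative (q l (n + 1)) = C ((n : ℝ) + 1) * q l n := by
    intro l n
    simp only [q]
    rw [derivative_sub, derivative_mul, hP, hP, derivative_add, derivative_X, derivative_C]
    simp only [Nat.cast_add, Nat.cast_one, map_add, map_one]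
    ring
  have hq0 : ∀ l, q l 0 = C (e1 - l * e0) := by
    intro l
    simp only [q, zero_add, h1, h0, map_sub, map_mul]
    ring
  have hcount : ∀ l, l ≠ e1 / e0 →
      ∑ m ∈ Finset.range N, Nf m l ≤ ENNReal.ofReal (((N : ℝ) + 1) / 2) := by
    intro l hl
    let A : ℕ → Finset ℝ := fun m => (q l (m + 1)).roots.toFinset.filter
      fun ξ => 0 < (q l (m + 2)).eval ξ * (q l m).eval ξ
    have he' : e1 - l * e0 ≠ 0 := by
      intro h
      apply hl
      field_simp
      linarith
    have hqne : ∀ n, q l n ≠ 0 := by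
      intro n
      induction n with
      | zero => rw [hq0]; exact C_ne_zero.2 he'
      | succ n ih =>
        intro h
        have := hq l n
        rw [h, derivative_zero] at this
        exact (mul_ne_zero (C_ne_zero.2 (by positivity : ((n : ℝ) + 1) ≠ 0)) ih) this.symm
    have hA := sum_count (q l) (e1 - l * e0) he' (hq l) (hq0 l) A (by
      intro m ξ hξ
      obtain ⟨h1, h2⟩ := Finset.mem_filter.1 hξ
      simp only [Multiset.mem_toFinset, mem_roots (hqne _), IsRoot] at h1
      exact ⟨h1, h2⟩) N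
    have hle : ∀ m, Nf m l ≤ (A m).card := by
      intro m
      apply hN3
      intro c hc hRc
      obtain ⟨⟨⟨⟨_, hp⟩, ha⟩, hb⟩, hd⟩ := hc
      simp only [mem_ofPred_eq] at hp ha hb hd
      simp only [R] at hRc
      have hpne : (P (m + 1)).eval c ≠ 0 := ne_of_gt hp
      have hcl : c + l = (P (m + 2)).eval c / (P (m + 1)).eval c := by linarith
      have e1' : (q l (m + 1)).eval c = 0 := by
        simp only [q, eval_sub, eval_mul, eval_add, eval_X, eval_C, hcl]
        field_simp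
        ring
      have e2 : (q l (m + 2)).eval c = (P (m + 3)).eval c
          - (P (m + 2)).eval c ^ 2 / (P (m + 1)).eval c := by
        simp only [q, eval_sub, eval_mul, eval_add, eval_X, eval_C, hcl]
        ring
      have e3 : (q l m).eval c = (P (m + 1)).eval c
          - (P (m + 2)).eval c * (P m).eval c / (P (m + 1)).eval c := by
        simp only [q, eval_sub, eval_mul, eval_add, eval_X, eval_C, hcl]
        ring
      refine Finset.mem_filter.2 ⟨?_, ?_⟩
      · simp only [Multiset.mem_toFinset, mem_roots (hqne _), IsRoot]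
        exact e1'
      · rw [e2, e3]
        set p := (P (m + 1)).eval c
        set u := (P m).eval c
        set v := (P (m + 2)).eval c
        set z := (P (m + 3)).eval c
        apply mul_pos
        · rw [sub_pos, div_lt_iff₀ hp]
          have h2 : v ^ 2 ≤ (p / 4) ^ 2 := by
            rw [← sq_abs v]
            exact pow_le_pow_left₀ (abs_nonneg _) (by linarith) 2
          nlinarith
        · rw [sub_pos, div_lt_iff₀ hp]
          have h1 : v * u ≤ |v| * |u| := by rw [← abs_mul]; exact le_abs_self _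
          have h2 : |v| * |u| ≤ (p / 4) * (p / 4) :=
            mul_le_mul (by linarith) (by linarith) (abs_nonneg _) (by positivity)
          nlinarith
    calc ∑ m ∈ Finset.range N, Nf m l ≤ ∑ m ∈ Finset.range N, ((A m).card : ℝ≥0∞) :=
          Finset.sum_le_sum fun m _ => hle m
      _ = ((∑ m ∈ Finset.range N, (A m).card : ℕ) : ℝ≥0∞) := by push_cast; rfl
      _ = ENNReal.ofReal ((∑ m ∈ Finset.range N, (A m).card : ℕ) : ℝ) := by
          rw [ENNReal.ofReal_natCast]
      _ ≤ _ := by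
          apply ENNReal.ofReal_le_ofReal
          rw [le_div_iff₀ (by norm_num)]
          have : ((2 * ∑ m ∈ Finset.range N, (A m).card : ℕ) : ℝ) ≤ ((N + 1 : ℕ) : ℝ) := by
            exact_mod_cast hA
          push_cast at this ⊢
          linarith
  have hout : ∀ l, l ∉ Icc (-(K + 1)) (K + 1) → ∑ m ∈ Finset.range N, Nf m l = 0 := by
    intro l hl
    apply Finset.sum_eq_zero
    intro m _
    have := hN3 m l ∅ (by
      intro c hc hRc
      exfalso
      apply hl
      obtain ⟨⟨⟨⟨hK', hp⟩, ha⟩, hb⟩, hd⟩ := hc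
      simp only [mem_ofPred_eq] at hK' hp ha hb hd
      simp only [R] at hRc
      have h1 : |(P (m + 2)).eval c / (P (m + 1)).eval c| ≤ 1 := by
        rw [abs_div, abs_of_pos hp, div_le_one hp]
        linarith [abs_nonneg ((P (m + 2)).eval c)]
      rw [abs_le] at h1 hK'
      constructor <;> linarith [h1.1, h1.2, hK'.1, hK'.2])
    simpa using this
  have hae : ∀ᵐ l : ℝ, ∑ m ∈ Finset.range N, Nf m l
      ≤ (Icc (-(K + 1)) (K + 1)).indicator (fun _ => ENNReal.ofReal (((N : ℝ) + 1) / 2)) l := by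
    have hne : ∀ᵐ l : ℝ, l ≠ e1 / e0 := by
      rw [ae_iff]
      simp
    filter_upwards [hne] with l hl
    by_cases h : l ∈ Icc (-(K + 1)) (K + 1)
    · rw [indicator_of_mem h]; exact hcount l hl
    · rw [hout l h]; exact bot_le
  calc ∑ m ∈ Finset.range N, ENNReal.ofReal (((m : ℝ) + 1) / 2) * volume (W P K m)
      ≤ ∑ m ∈ Finset.range N, ∫⁻ l, Nf m l := Finset.sum_le_sum fun m _ => hN2 m
    _ = ∫⁻ l, ∑ m ∈ Finset.range N, Nf m l := by
        rw [lintegral_finsetSum _ fun m _ => hN1 m]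
    _ ≤ ∫⁻ l, (Icc (-(K + 1)) (K + 1)).indicator
          (fun _ => ENNReal.ofReal (((N : ℝ) + 1) / 2)) l := lintegral_mono_ae hae
    _ = ENNReal.ofReal (((N : ℝ) + 1) / 2) * volume (Icc (-(K + 1)) (K + 1)) := by
        rw [lintegral_indicator measurableSet_Icc, setLIntegral_const]
    _ = _ := by
        rw [Real.volume_Icc, ← ENNReal.ofReal_mul (by positivity)]
        congr 1
        ring

lemma W_summable (P : ℕ → ℝ[X]) (e0 e1 : ℝ) (he : e0 ≠ 0)
    (hP : ∀ n, derivative (P (n + 1)) = C ((n : ℝ) + 1) * P n) (h0 : P 0 = C e0)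
    (h1 : P 1 = C e1 + X * C e0) (K : ℝ) (hK : 0 < K) :
    ∑' m : ℕ, ENNReal.ofReal (2 * K / ((m : ℝ) + 1)) * volume (W P K m) ≠ ∞ := by
  have hs : Summable fun m : ℕ => (volume (W P K m)).toReal / ((m : ℝ) + 1) := by
    apply abel _ (fun m => ENNReal.toReal_nonneg) (2 * (K + 1))
    intro N
    have := ENNReal.toReal_mono ENNReal.ofReal_ne_top (W_sum P e0 e1 he hP h0 h1 K hK N)
    rw [ENNReal.toReal_sum (fun m _ => ENNReal.mul_ne_top ENNReal.ofReal_ne_top (W_fin P K m)),
      ENNReal.toReal_ofReal (by positivity)] at this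
    have e : ∑ m ∈ Finset.range N, ((m : ℝ) + 1) * (volume (W P K m)).toReal
        = 2 * ∑ m ∈ Finset.range N,
          (ENNReal.ofReal (((m : ℝ) + 1) / 2) * volume (W P K m)).toReal := by
      rw [Finset.mul_sum]
      refine Finset.sum_congr rfl fun m _ => ?_
      rw [ENNReal.toReal_mul, ENNReal.toReal_ofReal (by positivity)]
      ring
    rw [e]
    linarith
  have h2 := (hs.mul_left (2 * K)).tsum_ofReal_ne_top
  convert h2 using 3 with m
  have e : 2 * K * ((volume (W P K m)).toReal / ((m : ℝ) + 1))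
      = 2 * K / ((m : ℝ) + 1) * (volume (W P K m)).toReal := by ring
  rw [e, ENNReal.ofReal_mul (by positivity), ENNReal.ofReal_toReal (W_fin P K m)]

/-- The set of parameters `(c, a)` where the `m`-th iterate is close to the target. -/
def E (P : ℕ → ℝ[X]) (K : ℝ) (m : ℕ) : Set (ℝ × ℝ) :=
  {p | 1 ≤ m ∧ 0 < p.2 ∧ p.2 ≤ K ∧ |p.1| ≤ K ∧ |p.2 ^ m * (P m).eval p.1| < 1 / 10 ∧
    |p.2 ^ m * (P (m + 1)).eval p.1 - 1| < 1 / 10 ∧ |p.2 ^ m * (P (m + 2)).eval p.1| < 1 / 10 ∧
    |p.2 ^ m * (P (m + 3)).eval p.1 - 1| < 1 / 10}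

lemma E_meas (P : ℕ → ℝ[X]) (K : ℝ) (m : ℕ) : MeasurableSet (E P K m) := by
  have hc : ∀ j, Continuous fun p : ℝ × ℝ => p.2 ^ m * (P j).eval p.1 := fun j => by
    exact (continuous_snd.pow m).mul ((P j).continuous.comp continuous_fst)
  have h1 : MeasurableSet {p : ℝ × ℝ | 1 ≤ m} := MeasurableSet.const _
  have h2 : MeasurableSet {p : ℝ × ℝ | 0 < p.2} :=
    (isOpen_lt continuous_const continuous_snd).measurableSet
  have h3 : MeasurableSet {p : ℝ × ℝ | p.2 ≤ K} :=
    (isClosed_le continuous_snd continuous_const).measurableSet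
  have h4 : MeasurableSet {p : ℝ × ℝ | |p.1| ≤ K} :=
    (isClosed_le continuous_fst.abs continuous_const).measurableSet
  have h5 : ∀ j, MeasurableSet {p : ℝ × ℝ | |p.2 ^ m * (P j).eval p.1| < 1 / 10} := fun j =>
    (isOpen_lt (hc j).abs continuous_const).measurableSet
  have h6 : ∀ j, MeasurableSet {p : ℝ × ℝ | |p.2 ^ m * (P j).eval p.1 - 1| < 1 / 10} := fun j =>
    (isOpen_lt ((hc j).sub continuous_const).abs continuous_const).measurableSet
  exact h1.inter (h2.inter (h3.inter (h4.inter ((h5 _).inter ((h6 _).inter ((h5 _).inter (h6 _)))))))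

lemma E_sec (P : ℕ → ℝ[X]) (K : ℝ) (hK : 0 < K) (m : ℕ) (c : ℝ) :
    volume (Prod.mk c ⁻¹' E P K m) ≤
      (W P K m).indicator (fun _ => ENNReal.ofReal (2 * K / ((m : ℝ) + 1))) c := by
  by_cases hne : (Prod.mk c ⁻¹' E P K m).Nonempty
  · obtain ⟨a, hm, ha0, haK, hcK, g0, g1, g2, g3⟩ := hne
    simp only at ha0 haK hcK g0 g1 g2 g3
    have hcW : c ∈ W P K m := by
      have ham : 0 < a ^ m := pow_pos ha0 m
      rw [abs_mul, abs_of_pos ham] at g0 g2
      rw [abs_lt] at g1 g3
      have hp : 0 < (P (m + 1)).eval c := by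
        by_contra h
        push Not at h
        have : a ^ m * (P (m + 1)).eval c ≤ 0 := mul_nonpos_of_nonneg_of_nonpos ham.le h
        linarith [g1.1]
      refine ⟨⟨⟨⟨hcK, hp⟩, ?_⟩, ?_⟩, ?_⟩
      · show 4 * |(P m).eval c| ≤ (P (m + 1)).eval c
        by_contra h
        push Not at h
        have := mul_lt_mul_of_pos_left h ham
        linarith [g1.1]
      · show 4 * |(P (m + 2)).eval c| ≤ (P (m + 1)).eval c
        by_contra h
        push Not at h
        have := mul_lt_mul_of_pos_left h ham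
        linarith [g1.1]
      · show (P (m + 1)).eval c ≤ 2 * (P (m + 3)).eval c
        by_contra h
        push Not at h
        have := mul_lt_mul_of_pos_left h ham
        linarith [g1.2, g3.1]
    rw [indicator_of_mem hcW]
    refine (Real.volume_le_diam _).trans (Metric.ediam_le ?_)
    -- two points
    have two : ∀ a ∈ Prod.mk c ⁻¹' E P K m, ∀ b ∈ Prod.mk c ⁻¹' E P K m, a ≤ b →
        b - a ≤ 2 * K / ((m : ℝ) + 1) := by
      rintro a ⟨-, ha0, haK, -, -, a1, -, -⟩ b ⟨-, hb0, hbK, -, -, b1, -, -⟩ hab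
      simp only at ha0 haK a1 hb0 hbK b1
      have hm' : (1 : ℝ) ≤ m := by exact_mod_cast hm
      obtain ⟨⟨⟨⟨-, hp⟩, -⟩, -⟩, -⟩ := hcW
      simp only [mem_ofPred_eq] at hp
      rw [abs_lt] at a1 b1
      have hbern := one_add_mul_le_pow (a := (b - a) / a) (by
        have : 0 ≤ (b - a) / a := div_nonneg (by linarith) ha0.le
        linarith) m
      have e1 : 1 + (b - a) / a = b / a := by field_simp; ring
      rw [e1, div_pow] at hbern
      have hr : b ^ m / a ^ m ≤ 11 / 9 := by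
        rw [div_le_iff₀ (pow_pos ha0 m)]
        have h1 : b ^ m * (P (m + 1)).eval c ≤ (11 / 9) * (a ^ m * (P (m + 1)).eval c) := by
          linarith [a1.1, b1.2]
        have h2 : b ^ m * (P (m + 1)).eval c ≤ (11 / 9 * a ^ m) * (P (m + 1)).eval c := by
          linarith
        exact le_of_mul_le_mul_right h2 hp
      have h3 : (m : ℝ) * ((b - a) / a) ≤ 2 / 9 := by linarith
      have h4 : (m : ℝ) * (b - a) ≤ 2 / 9 * a := by
        have := mul_le_mul_of_nonneg_right h3 ha0.le
        have e2 : (m : ℝ) * ((b - a) / a) * a = (m : ℝ) * (b - a) := by field_simp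
        linarith
      rw [le_div_iff₀ (by positivity)]
      have h5 : (b - a) * ((m : ℝ) + 1) ≤ 2 * ((m : ℝ) * (b - a)) := by
        nlinarith
      linarith
    intro a ha b hb
    rw [edist_dist]
    apply ENNReal.ofReal_le_ofReal
    rw [Real.dist_eq]
    rcases le_total a b with h | h
    · rw [abs_sub_comm, abs_of_nonneg (by linarith)]
      exact two a ha b hb h
    · rw [abs_of_nonneg (by linarith)]
      exact two b hb a ha h
  · rw [not_nonempty_iff_eq_empty] at hne
    rw [hne]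
    simp

lemma E_vol (P : ℕ → ℝ[X]) (K : ℝ) (hK : 0 < K) (m : ℕ) :
    volume (E P K m) ≤ ENNReal.ofReal (2 * K / ((m : ℝ) + 1)) * volume (W P K m) := by
  rw [Measure.volume_eq_prod, Measure.prod_apply (E_meas P K m)]
  calc ∫⁻ c, volume (Prod.mk c ⁻¹' E P K m)
      ≤ ∫⁻ c, (W P K m).indicator (fun _ => ENNReal.ofReal (2 * K / ((m : ℝ) + 1))) c :=
        lintegral_mono fun c => E_sec P K hK m c
    _ = _ := by rw [lintegral_indicator (W_meas P K m), setLIntegral_const]

variable {Y : Type*} [AddCommGroup Y] [Module ℝ Y] [TopologicalSpace Y] [IsTopologicalAddGroup Y]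
  [ContinuousConstSMul ℝ Y]

/-- The null set in the coordinates `(c, a)`, with a functional not vanishing at the vector. -/
lemma null_ca (T : Y →L[ℝ] Y) (x : Y) (f : Y →L[ℝ] ℝ) (hfx : f x ≠ 0) (K : ℝ) (hK : 0 < K) :
    volume {p : ℝ × ℝ | 0 < p.2 ∧ p.2 ≤ K ∧ |p.1| ≤ K ∧
      Dense (range fun n : ℕ => (fun y => p.2 • (T + p.1 • (1 : Y →L[ℝ] Y)) y)^[n] x)} = 0 := by
  set s : ℕ → ℝ := fun j => f ((T ^ j) x) with hs
  set P : ℕ → ℝ[X] := fun n => app n s with hPdef
  have hf0 : f ≠ 0 := by rintro rfl; simp at hfx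
  have hsum := W_summable P (s 0) (s 1) (by simpa [hs] using hfx)
    (fun n => app_derivative n s) rfl rfl K hK
  have hE : ∑' m, volume {p | p ∈ E P K m} ≠ ∞ := by
    refine ne_top_of_le_ne_top hsum (ENNReal.tsum_le_tsum fun m => ?_)
    exact E_vol P K hK m
  have hnull := measure_setOfPred_frequently_eq_zero hE
  refine measure_mono_null ?_ hnull
  rintro ⟨c, a⟩ ⟨ha0, haK, hcK, hd⟩
  simp only at ha0 haK hcK hd
  have hfr := frequently_close (T + c • (1 : Y →L[ℝ] Y)) a x hd f hf0 0 1 0 1 (1 / 10) (by norm_num)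
  have hfr2 := hfr.and_eventually (eventually_ge_atTop 1)
  refine hfr2.mono ?_
  rintro m ⟨⟨b0, b1, b2, b3⟩, hm⟩
  rw [sub_zero] at b0 b2
  refine ⟨hm, ha0, haK, hcK, ?_, ?_, ?_, ?_⟩
  · simp only [hPdef, hs]; rw [app_eval]; exact b0
  · simp only [hPdef, hs]; rw [app_eval]; exact b1
  · simp only [hPdef, hs]; rw [app_eval]; exact b2
  · simp only [hPdef, hs]; rw [app_eval]; exact b3

/-- The good parameters `(a, b)` with `a > 0` form a null set. -/
lemma null_pos (T : Y →L[ℝ] Y) (x : Y) (f : Y →L[ℝ] ℝ) (hfx : f x ≠ 0) :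
    volume {p : ℝ × ℝ | 0 < p.1 ∧
      Dense (range fun n : ℕ => ((p.1 • T + p.2 • (1 : Y →L[ℝ] Y)) ^ n) x)} = 0 := by
  let φ : ℝ × ℝ → ℝ × ℝ := fun p => (p.2, p.2 * p.1)
  have hφ : Differentiable ℝ φ := by
    intro p
    exact DifferentiableAt.prodMk differentiableAt_snd
      (differentiableAt_snd.mul differentiableAt_fst)
  let S : ℕ → Set (ℝ × ℝ) := fun K => {p : ℝ × ℝ | 0 < p.2 ∧ p.2 ≤ (K : ℝ) + 1 ∧
      |p.1| ≤ (K : ℝ) + 1 ∧
      Dense (range fun n : ℕ => (fun y => p.2 • (T + p.1 • (1 : Y →L[ℝ] Y)) y)^[n] x)}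
  have hS : ∀ K, volume (φ '' S K) = 0 := fun K =>
    addHaar_image_eq_zero_of_differentiableOn_of_addHaar_eq_zero volume hφ.differentiableOn
      (null_ca T x f hfx ((K : ℝ) + 1) (by positivity))
  refine measure_mono_null ?_ (measure_iUnion_null hS)
  rintro ⟨a, b⟩ ⟨ha, hd⟩
  simp only at ha hd
  obtain ⟨K, hK⟩ := exists_nat_gt (max a |b / a|)
  have hK1 := (le_max_left _ _).trans_lt hK
  have hK2 := (le_max_right _ _).trans_lt hK
  refine mem_iUnion.2 ⟨K, (b / a, a), ⟨ha, ?_, ?_, ?_⟩, ?_⟩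
  · show a ≤ (K : ℝ) + 1
    linarith
  · show |b / a| ≤ (K : ℝ) + 1
    linarith
  · convert hd using 3 with n
    rw [iterate_smul]
    have e : a • T + b • (1 : Y →L[ℝ] Y) = a • (T + (b / a) • (1 : Y →L[ℝ] Y)) := by
      rw [smul_add, smul_smul, mul_div_cancel₀ _ ha.ne']
    rw [e, _root_.smul_pow]
    rfl
  · show (a, a * (b / a)) = (a, b)
    rw [mul_div_cancel₀ _ ha.ne']

/-- For every vector, the set of parameters for which it is hypercyclic is a null set. -/
theorem null_all (T : Y →L[ℝ] Y) (x : Y) (hY : ∃ f : Y →L[ℝ] ℝ, f ≠ 0) :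
    volume {p : ℝ × ℝ |
      Dense (range fun n : ℕ => ((p.1 • T + p.2 • (1 : Y →L[ℝ] Y)) ^ n) x)} = 0 := by
  set G := {p : ℝ × ℝ |
      Dense (range fun n : ℕ => ((p.1 • T + p.2 • (1 : Y →L[ℝ] Y)) ^ n) x)} with hG
  rcases G.eq_empty_or_nonempty with h | ⟨p, hp⟩
  · rw [h]; simp
  · -- a functional not vanishing at x
    obtain ⟨g, hg⟩ : ∃ g : Y →L[ℝ] ℝ, g x ≠ 0 := by
      obtain ⟨f, hf⟩ := hY
      by_contra hcon
      push Not at hcon
      apply hf
      have hd : Dense (range fun n : ℕ => ((p.1 • T + p.2 • (1 : Y →L[ℝ] Y)) ^ n) x) := hp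
      have hfun : (f : Y → ℝ) = fun _ => 0 := by
        refine Continuous.ext_on hd f.continuous continuous_const ?_
        rintro _ ⟨n, rfl⟩
        exact hcon (f.comp ((p.1 • T + p.2 • (1 : Y →L[ℝ] Y)) ^ n))
      ext y
      exact congrFun hfun y
    have h1 := null_pos T x g hg
    have h2 := null_pos (-T) x g hg
    have h3 : volume {p : ℝ × ℝ | p.1 = 0} = 0 := by
      have e : {p : ℝ × ℝ | p.1 = 0} = ({0} : Set ℝ) ×ˢ (univ : Set ℝ) := by
        ext ⟨a, b⟩; simp
      rw [e, Measure.volume_eq_prod, Measure.prod_prod]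
      simp
    let ψ : ℝ × ℝ → ℝ × ℝ := fun p => (-p.1, p.2)
    have hψ : Differentiable ℝ ψ := by
      intro p
      exact DifferentiableAt.prodMk differentiableAt_fst.neg differentiableAt_snd
    have h4 := addHaar_image_eq_zero_of_differentiableOn_of_addHaar_eq_zero volume
      hψ.differentiableOn h2
    refine measure_mono_null ?_ (measure_union_null (measure_union_null h1 h4) h3)
    rintro ⟨a, b⟩ hab
    rcases lt_trichotomy a 0 with ha | ha | ha
    · refine Or.inl (Or.inr ⟨(-a, b), ⟨?_, ?_⟩, ?_⟩)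
      · show 0 < -a
        linarith
      · have e : (-a) • (-T) + b • (1 : Y →L[ℝ] Y) = a • T + b • (1 : Y →L[ℝ] Y) := by
          rw [neg_smul_neg]
        show Dense (range fun n : ℕ => (((-a) • (-T) + b • (1 : Y →L[ℝ] Y)) ^ n) x)
        rw [e]
        exact hab
      · show (- -a, b) = (a, b)
        rw [neg_neg]
    · exact Or.inr ha
    · exact Or.inl (Or.inl ⟨ha, hab⟩)

end Q8.HC
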